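import Mathlib
import Pool.Agent.H361R2.PP.Iface

/-!
Sharp lower bound of the Selberg sum over rough numbers (interface statement `GGSharp`).
-/

set_option autoImplicit false

open Finset

namespace Pool.Agent.H633R2

open Pool.Agent.H410R2.AC (wt GG)

/-- reciprocal as a monoid homomorphism -/
noncomputable def recip : ℕ →* ℝ where
  toFun n := (n : ℝ)⁻¹
  map_one' := by simp
  map_mul' := by intro a b; push_cast; rw [mul_inv]

lemma sum_inv_le_prod (s : Finset ℕ) (hs : ∀ p ∈ s, p.Prime) (M : Finset ℕ)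
    (hM : ∀ m ∈ M, m ∈ Nat.factoredNumbers s) :
    ∑ m ∈ M, (m : ℝ)⁻¹ ≤ ∏ p ∈ s, (1 - (p : ℝ)⁻¹)⁻¹ := by
  have h1 : ∀ {p : ℕ}, p.Prime → ‖recip p‖ < 1 := by
    intro p hp
    have : (1 : ℝ) < p := by exact_mod_cast hp.one_lt
    simp only [recip, MonoidHom.coe_mk, OneHom.coe_mk, norm_inv, Real.norm_natCast]
    exact inv_lt_one_of_one_lt₀ this
  obtain ⟨-, h2⟩ := EulerProduct.summable_and_hasSum_factoredNumbers_prod_filter_prime_geometric
    (f := recip) h1 s
  have h3 : (s.filter (fun p => p.Prime)) = s := Finset.filter_true_of_mem hs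
  rw [h3] at h2
  have h4 := sum_le_hasSum (M.subtype (fun m => m ∈ Nat.factoredNumbers s)) (by
    intro i _
    simp [recip]) h2
  have h5 : ∑ i ∈ M.subtype (fun m => m ∈ Nat.factoredNumbers s), recip (i : ℕ) =
      ∑ m ∈ M, (m : ℝ)⁻¹ := by
    rw [Finset.sum_subtype_eq_sum_filter (s := M) (p := fun m => m ∈ Nat.factoredNumbers s)
      (fun m => recip m)]
    rw [Finset.filter_true_of_mem hM]
    rfl
  rw [← h5]
  exact h4

lemma wt_eq (R : Finset ℕ) (hR : ∀ p ∈ R, p.Prime) :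
    ((∏ p ∈ R, p : ℕ) : ℝ)⁻¹ * ∏ p ∈ R, (1 - (p : ℝ)⁻¹)⁻¹ = wt R := by
  rw [wt]
  push_cast
  rw [← Finset.prod_inv_distrib, ← Finset.prod_mul_distrib]
  refine Finset.prod_congr rfl fun p hp => ?_
  have : (1 : ℝ) < p := by exact_mod_cast (hR p hp).one_lt
  have h0 : (p : ℝ) ≠ 0 := by linarith
  have h1 : (p : ℝ) - 1 ≠ 0 := by linarith
  rw [← mul_inv, mul_sub, mul_one, mul_inv_cancel₀ h0, one_div]

theorem ggSharp : Pool.Agent.H361R2.PP.GGSharp := by
  intro J z Y hY1 hYz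
  set H := 2 ^ 2 ^ J with hH
  set P : Finset ℕ := (range H).filter Nat.Prime with hP
  set Q := Pool.Agent.H361R2.PP.P2 J z with hQ
  have hPp : ∀ p ∈ P, p.Prime := fun p hp => (Finset.mem_filter.1 hp).2
  have hQp : ∀ p ∈ Q, p.Prime := fun p hp => (Finset.mem_filter.1 hp).2.1
  have hlog : Real.log Y ≤ ∑ m ∈ Icc 1 Y, (m : ℝ)⁻¹ := by
    have := log_add_one_le_harmonic Y
    rw [harmonic_eq_sum_Icc] at this
    push_cast at this
    refine le_trans (Real.log_le_log (by exact_mod_cast hY1) (by linarith)) this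
  have hV : 0 < ∏ p ∈ P, (1 - 1 / (p : ℝ)) := by
    refine Finset.prod_pos fun p hp => ?_
    have : (1 : ℝ) < p := by exact_mod_cast (hPp p hp).one_lt
    rw [sub_pos, one_div]
    exact inv_lt_one_of_one_lt₀ this
  have hinv : ∏ p ∈ P, (1 - (p : ℝ)⁻¹)⁻¹ = (∏ p ∈ P, (1 - 1 / (p : ℝ)))⁻¹ := by
    rw [Finset.prod_inv_distrib]
    simp [one_div]
  rw [← le_div_iff₀ hV]
  refine hlog.trans ?_
  set F := Q.powerset.filter (fun R : Finset ℕ => ∏ p ∈ R, p ≤ Y) with hF
  have hmap : ∀ m ∈ Icc 1 Y, (m.primeFactors ∩ Q) ∈ F := by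
    intro m hm
    rw [Finset.mem_Icc] at hm
    rw [hF, Finset.mem_filter, Finset.mem_powerset]
    refine ⟨Finset.inter_subset_right, ?_⟩
    refine le_trans ?_ hm.2
    refine Nat.le_of_dvd (by omega) ?_
    refine dvd_trans (Finset.prod_dvd_prod_of_subset _ _ _ Finset.inter_subset_left) ?_
    exact Nat.prod_primeFactors_dvd m
  rw [← Finset.sum_fiberwise_of_maps_to hmap, GG, Finset.sum_div]
  refine Finset.sum_le_sum fun R hR => ?_
  rw [hF, Finset.mem_filter, Finset.mem_powerset] at hR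
  obtain ⟨hRQ, hRY⟩ := hR
  have hRp : ∀ p ∈ R, p.Prime := fun p hp => hQp p (hRQ hp)
  set Rp : ℕ := ∏ p ∈ R, p with hRp'
  have hRpos : 0 < Rp := Finset.prod_pos fun p hp => (hRp p hp).pos
  set M := (Icc 1 Y).filter (fun m => m.primeFactors ∩ Q = R) with hM
  have hdvd : ∀ m ∈ M, Rp ∣ m := by
    intro m hm
    rw [hM, Finset.mem_filter] at hm
    rw [hRp', ← hm.2]
    refine dvd_trans (Finset.prod_dvd_prod_of_subset _ _ _ Finset.inter_subset_left) ?_
    exact Nat.prod_primeFactors_dvd m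
  have hdisj : Disjoint P R := by
    rw [Finset.disjoint_left]
    intro p hp hpR
    have h1 := (Finset.mem_filter.1 hp).1
    have h2 := (Finset.mem_filter.1 (hRQ hpR)).2.2
    rw [Finset.mem_range] at h1
    omega
  have hsum : ∑ m ∈ M, (m : ℝ)⁻¹ = (Rp : ℝ)⁻¹ * ∑ k ∈ M.image (fun m => m / Rp), (k : ℝ)⁻¹ := by
    rw [Finset.sum_image, Finset.mul_sum]
    · refine Finset.sum_congr rfl fun m hm => ?_
      obtain ⟨k, rfl⟩ := hdvd m hm
      rw [Nat.mul_div_cancel_left _ hRpos]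
      push_cast
      rw [mul_inv]
    · intro a ha b hb hab
      obtain ⟨k, rfl⟩ := hdvd a ha
      obtain ⟨l, rfl⟩ := hdvd b hb
      simp only [Nat.mul_div_cancel_left _ hRpos] at hab
      rw [hab]
  rw [hsum]
  have hle : ∑ k ∈ M.image (fun m => m / Rp), (k : ℝ)⁻¹ ≤
      ∏ p ∈ P ∪ R, (1 - (p : ℝ)⁻¹)⁻¹ := by
    refine sum_inv_le_prod _ ?_ _ ?_
    · intro p hp
      rcases Finset.mem_union.1 hp with h | h
      · exact hPp p h
      · exact hRp p h
    · intro k hk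
      rw [Finset.mem_image] at hk
      obtain ⟨m, hm, rfl⟩ := hk
      obtain ⟨k, hk⟩ := hdvd m hm
      rw [hM, Finset.mem_filter, Finset.mem_Icc] at hm
      have hk0 : k ≠ 0 := by
        rintro rfl
        simp at hk
        omega
      rw [hk, Nat.mul_div_cancel_left _ hRpos, Nat.mem_factoredNumbers_iff_primeFactors_subset]
      refine ⟨hk0, ?_⟩
      intro p hp
      have hpp := Nat.prime_of_mem_primeFactors hp
      have hpk := Nat.dvd_of_mem_primeFactors hp
      have hpm : p ∣ m := hk ▸ dvd_mul_of_dvd_right hpk _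
      have hpY : p ≤ Y := (Nat.le_of_dvd (by omega) hpm).trans hm.1.2
      rw [Finset.mem_union]
      by_cases hpH : p < H
      · left
        rw [hP, Finset.mem_filter, Finset.mem_range]
        exact ⟨hpH, hpp⟩
      · right
        rw [← hm.2, Finset.mem_inter]
        refine ⟨Nat.mem_primeFactors.2 ⟨hpp, hpm, by omega⟩, ?_⟩
        rw [hQ, Pool.Agent.H361R2.PP.P2, Finset.mem_filter, Finset.mem_range]
        refine ⟨by omega, hpp, ?_⟩
        rw [← hH]
        omega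
  calc (Rp : ℝ)⁻¹ * ∑ k ∈ M.image (fun m => m / Rp), (k : ℝ)⁻¹
      ≤ (Rp : ℝ)⁻¹ * ∏ p ∈ P ∪ R, (1 - (p : ℝ)⁻¹)⁻¹ :=
        mul_le_mul_of_nonneg_left hle (by positivity)
    _ = wt R / ∏ p ∈ P, (1 - 1 / (p : ℝ)) := by
        rw [Finset.prod_union hdisj, hinv, ← wt_eq R hRp, div_eq_mul_inv]
        ring

end Pool.Agent.H633R2
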